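import Mathlib

/-!
# The Zariski topology of products of finite groups

For a family of finite groups with trivial centres the Zariski topology of the full product is the product topology, hence compact and Hausdorff.
If infinitely many of the centres are not trivial, it is not Hausdorff.
-/

set_option autoImplicit false

universe u v

namespace Pool.Agent.Results.MP_207b86_al.FiniteProducts

/-- The evaluation `w ↦ w(a)` of words `w ∈ G * ⟨x⟩` at `a ∈ G`. -/
noncomputable def ev (G : Type u) [Group G] (a : G) : Monoid.Coprod G (FreeGroup Unit) →* G :=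
  Monoid.Coprod.lift (MonoidHom.id G) (FreeGroup.lift (fun _ => a))

/-- The Zariski topology of `G`: the solution sets `{a | w(a) = 1}` are a subbase for the closed sets. -/
def Zar (G : Type u) [Group G] : TopologicalSpace G :=
  TopologicalSpace.generateFrom {U : Set G | ∃ w : Monoid.Coprod G (FreeGroup Unit), U = {a : G | ev G a w = 1}ᶜ}

/-- The product topology with discrete factors. -/
def prodTop {I : Type v} (F : I → Type u) : TopologicalSpace (∀ i, F i) :=
  @Pi.topologicalSpace I F (fun _ => ⊥)

section general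

variable {G : Type u} [Group G]

private lemma ev_inl (a g : G) : ev G a (Monoid.Coprod.inl g) = g := by simp [ev]

private lemma ev_x (a : G) : ev G a (Monoid.Coprod.inr (FreeGroup.of ())) = a := by simp [ev]

/-- the exponent sum of `x` -/
private noncomputable def expo (G : Type u) [Group G] : Monoid.Coprod G (FreeGroup Unit) →* Multiplicative ℤ :=
  Monoid.Coprod.lift 1 (FreeGroup.lift (fun _ => Multiplicative.ofAdd 1))

private lemma ev_center {z : G} (hz : z ∈ Subgroup.center G) (w : Monoid.Coprod G (FreeGroup Unit)) :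
    ev G z w = ev G 1 w * z ^ (Multiplicative.toAdd (expo G w)) := by
  have hc : ∀ (n : ℤ) (y : G), z ^ n * y = y * z ^ n := by
    intro n y
    have := Subgroup.mem_center_iff.mp (Subgroup.zpow_mem _ hz n) y
    exact this.symm
  induction w using Monoid.Coprod.induction_on with
  | inl m => simp [ev, expo]
  | inr n =>
    induction n using FreeGroup.induction_on with
    | C1 => simp [ev, expo]
    | of x => simp [ev, expo]
    | inv_of x ih => simp [ev, expo]
    | mul x y hx hy =>
      simp only [map_mul, toAdd_mul, zpow_add] at *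
      rw [hx, hy]
      have := hc (Multiplicative.toAdd (expo G (Monoid.Coprod.inr x))) (ev G 1 (Monoid.Coprod.inr y))
      calc _ = ev G 1 (Monoid.Coprod.inr x) * (z ^ (Multiplicative.toAdd (expo G (Monoid.Coprod.inr x))) * ev G 1 (Monoid.Coprod.inr y)) *
            z ^ (Multiplicative.toAdd (expo G (Monoid.Coprod.inr y))) := by group
        _ = _ := by rw [this]; group
  | mul x y hx hy =>
    simp only [map_mul, toAdd_mul, zpow_add] at *
    rw [hx, hy]
    have := hc (Multiplicative.toAdd (expo G x)) (ev G 1 y)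
    calc _ = ev G 1 x * (z ^ (Multiplicative.toAdd (expo G x)) * ev G 1 y) *
          z ^ (Multiplicative.toAdd (expo G y)) := by group
      _ = _ := by rw [this]; group

/-- the elements of the centre killed by `k` -/
private def Zk (G : Type u) [Group G] (k : ℕ) : Set G := {z | z ∈ Subgroup.center G ∧ z ^ k = 1}

private lemma exists_min (h : (Zk G 0).Infinite) :
    ∃ k : ℕ, (Zk G k).Infinite ∧ ∀ j : ℕ, j ∣ k → (Zk G j).Infinite → j = k := by
  classical
  by_cases hp : ∃ k : ℕ, 0 < k ∧ (Zk G k).Infinite
  · refine ⟨Nat.find hp, (Nat.find_spec hp).2, ?_⟩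
    intro j hj hinf
    have hk := (Nat.find_spec hp).1
    have h1 : j ≤ Nat.find hp := Nat.le_of_dvd hk hj
    have h2 : 0 < j := Nat.pos_of_dvd_of_pos hj hk
    exact le_antisymm h1 (Nat.find_min' hp ⟨h2, hinf⟩)
  · refine ⟨0, h, ?_⟩
    intro j _ hinf
    by_contra hj
    exact hp ⟨j, Nat.pos_of_ne_zero hj, hinf⟩

private lemma fin_or_all {k : ℕ} (hmin : ∀ j : ℕ, j ∣ k → (Zk G j).Infinite → j = k)
    (w : Monoid.Coprod G (FreeGroup Unit)) :
    (Zk G k ∩ {a : G | ev G a w = 1}).Finite ∨ Zk G k ⊆ {a : G | ev G a w = 1} := by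
  by_contra hcon
  push Not at hcon
  obtain ⟨h1, h2⟩ := hcon
  apply h2
  have hinf : (Zk G k ∩ {a : G | ev G a w = 1}).Infinite := h1
  obtain ⟨z1, hz1, hz1'⟩ := hinf.nonempty
  set e : ℤ := Multiplicative.toAdd (expo G w) with he
  have hz1e : ev G 1 w * z1 ^ e = 1 := by
    rw [← ev_center hz1.1 w]; exact hz1'
  -- translate by z1
  have hsub : (fun z => z1⁻¹ * z) '' (Zk G k ∩ {a : G | ev G a w = 1}) ⊆ Zk G (Nat.gcd k e.natAbs) := by
    rintro y ⟨z, ⟨hz, hz'⟩, rfl⟩
    have hze : ev G 1 w * z ^ e = 1 := by
      rw [← ev_center hz.1 w]; exact hz'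
    have hyc : z1⁻¹ * z ∈ Subgroup.center G := Subgroup.mul_mem _ (Subgroup.inv_mem _ hz1.1) hz.1
    refine ⟨hyc, ?_⟩
    have hcomm : Commute z1⁻¹ z := by
      have := Subgroup.mem_center_iff.mp (Subgroup.inv_mem _ hz1.1) z
      exact this.symm
    have hk' : (z1⁻¹ * z) ^ k = 1 := by
      rw [hcomm.mul_pow, inv_pow, hz1.2, hz.2]; simp
    have he' : (z1⁻¹ * z) ^ e = 1 := by
      rw [hcomm.mul_zpow, inv_zpow]
      have : z1 ^ e = z ^ e := mul_left_cancel (hz1e.trans hze.symm)
      rw [this]; simp
    have he'' : (z1⁻¹ * z) ^ e.natAbs = 1 := by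
      rcases Int.natAbs_eq e with h | h
      · rw [h] at he'
        exact_mod_cast he'
      · rw [h, zpow_neg] at he'
        have := inv_eq_one.mp he'
        exact_mod_cast this
    rw [pow_gcd_eq_one]
    exact ⟨hk', he''⟩
  have hinj : Function.Injective (fun z : G => z1⁻¹ * z) := mul_right_injective _
  have hinf2 : (Zk G (Nat.gcd k e.natAbs)).Infinite := (hinf.image hinj.injOn).mono hsub
  have hk := hmin _ (Nat.gcd_dvd_left _ _) hinf2
  have hdvd : k ∣ e.natAbs := by rw [← hk]; exact Nat.gcd_dvd_right _ _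
  intro z hz
  change ev G z w = 1
  rw [ev_center hz.1 w]
  have hze : z ^ e = 1 := by
    have hd : (k : ℤ) ∣ e := Int.natCast_dvd.mpr hdvd
    obtain ⟨m, hm⟩ := hd
    rw [hm, zpow_mul]
    have : z ^ (k : ℤ) = 1 := by exact_mod_cast hz.2
    rw [this]; simp
  have hz1e' : z1 ^ e = 1 := by
    have hd : (k : ℤ) ∣ e := Int.natCast_dvd.mpr hdvd
    obtain ⟨m, hm⟩ := hd
    rw [hm, zpow_mul]
    have : z1 ^ (k : ℤ) = 1 := by exact_mod_cast hz1.2
    rw [this]; simp
  rw [← he, hze, mul_one]
  rw [hz1e', mul_one] at hz1e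
  exact hz1e

private lemma open_dich {k : ℕ} (hmin : ∀ j : ℕ, j ∣ k → (Zk G j).Infinite → j = k) (U : Set G)
    (hU : (Zar G).IsOpen U) : Zk G k ∩ U = ∅ ∨ (Zk G k \ U).Finite := by
  have hU' : TopologicalSpace.GenerateOpen
      {U : Set G | ∃ w : Monoid.Coprod G (FreeGroup Unit), U = {a : G | ev G a w = 1}ᶜ} U := hU
  induction hU' with
  | basic s hs =>
    obtain ⟨w, rfl⟩ := hs
    rcases fin_or_all hmin w with h | h
    · right
      refine h.subset ?_
      rintro x ⟨hx, hx'⟩
      exact ⟨hx, by simpa using hx'⟩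
    · left
      ext x
      simp only [Set.mem_inter_iff, Set.mem_compl_iff, Set.mem_empty_iff_false, iff_false, not_and, not_not]
      intro hx
      exact h hx
  | univ => right; simp
  | inter s t hs ht ihs iht =>
    rcases ihs hs with h | h
    · left
      rw [← Set.inter_assoc, h, Set.empty_inter]
    · rcases iht ht with h' | h'
      · left
        rw [Set.inter_comm s t, ← Set.inter_assoc, h', Set.empty_inter]
      · right
        rw [Set.sdiff_inter]
        exact h.union h'
  | sUnion S hS ih =>
    by_cases hall : ∀ s ∈ S, Zk G k ∩ s = ∅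
    · left
      ext x
      simp only [Set.mem_inter_iff, Set.mem_sUnion, Set.mem_empty_iff_false, iff_false, not_and, not_exists]
      intro hx s hs hxs
      have := hall s hs
      exact (Set.eq_empty_iff_forall_notMem.mp this x) ⟨hx, hxs⟩
    · right
      push Not at hall
      obtain ⟨s, hs, hne⟩ := hall
      rcases ih s hs (hS s hs) with h | h
      · exact absurd h (Set.nonempty_iff_ne_empty.mp hne)
      · refine h.subset ?_
        intro x hx
        exact ⟨hx.1, fun hxs => hx.2 (Set.mem_sUnion.mpr ⟨s, hs, hxs⟩)⟩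

/-- A group with Hausdorff Zariski topology has finite centre. -/
theorem center_finite (h : @T2Space G (Zar G)) : (Subgroup.center G : Set G).Finite := by
  by_contra hinf
  have h0 : (Zk G 0).Infinite := by
    have : Zk G 0 = (Subgroup.center G : Set G) := by
      ext x; simp [Zk]
    rw [this]; exact hinf
  obtain ⟨k, hk, hmin⟩ := exists_min h0
  obtain ⟨x, hx, y, hy, hxy⟩ := hk.nontrivial
  obtain ⟨U, V, hU, hV, hxU, hyV, hd⟩ := @T2Space.t2 G (Zar G) h x y hxy
  have hU' : (Zk G k \ U).Finite := by
    rcases open_dich hmin U hU with h1 | h1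
    · exact absurd (Set.mem_inter hx hxU) (by rw [h1]; simp)
    · exact h1
  have hV' : (Zk G k \ V).Finite := by
    rcases open_dich hmin V hV with h1 | h1
    · exact absurd (Set.mem_inter hy hyV) (by rw [h1]; simp)
    · exact h1
  apply hk
  refine (hU'.union hV').subset ?_
  intro z hz
  by_cases hzU : z ∈ U
  · right
    exact ⟨hz, fun hzV => (Set.disjoint_left.mp hd) hzU hzV⟩
  · left; exact ⟨hz, hzU⟩

end general

section products

variable {I : Type v} {F : I → Type u} [∀ i, Group (F i)]

private lemma cont_ev (w : Monoid.Coprod (∀ i, F i) (FreeGroup Unit)) :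
    @Continuous (∀ i, F i) (∀ i, F i) (prodTop F) (prodTop F) (fun a => ev (∀ i, F i) a w) := by
  let _ : ∀ i, TopologicalSpace (F i) := fun _ => ⊥
  have : ∀ i, DiscreteTopology (F i) := fun _ => ⟨rfl⟩
  have : ∀ i, IsTopologicalGroup (F i) := fun _ => inferInstance
  have : IsTopologicalGroup (∀ i, F i) := inferInstance
  change Continuous (fun a : (∀ i, F i) => ev (∀ i, F i) a w)
  induction w using Monoid.Coprod.induction_on with
  | inl m => simpa [ev] using continuous_const
  | inr n =>
    induction n using FreeGroup.induction_on with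
    | C1 => simpa [ev] using continuous_const
    | of x =>
      have : (fun a => ev (∀ i, F i) a (Monoid.Coprod.inr (FreeGroup.of x))) = id := by
        funext a; simp [ev]
      rw [this]; exact continuous_id
    | inv_of x ih =>
      have : (fun a => ev (∀ i, F i) a (Monoid.Coprod.inr (FreeGroup.of x)⁻¹)) = fun a => a⁻¹ := by
        funext a; simp [ev]
      rw [this]; exact continuous_inv
    | mul x y hx hy =>
      have : (fun a => ev (∀ i, F i) a (Monoid.Coprod.inr (x * y))) =
          fun a => ev (∀ i, F i) a (Monoid.Coprod.inr x) * ev (∀ i, F i) a (Monoid.Coprod.inr y) := by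
        funext a; simp
      rw [this]; exact hx.mul hy
  | mul x y hx hy =>
    have : (fun a => ev (∀ i, F i) a (x * y)) = fun a => ev (∀ i, F i) a x * ev (∀ i, F i) a y := by
      funext a; simp
    rw [this]; exact hx.mul hy

/-- The commutator word `[g⁻¹ x, c]`. -/
private noncomputable def wd {G : Type*} [Group G] (g c : G) : Monoid.Coprod G (FreeGroup Unit) :=
  (Monoid.Coprod.inl g⁻¹ * Monoid.Coprod.inr (FreeGroup.of ())) * Monoid.Coprod.inl c *
    (Monoid.Coprod.inl g⁻¹ * Monoid.Coprod.inr (FreeGroup.of ()))⁻¹ * Monoid.Coprod.inl c⁻¹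

private lemma ev_wd {G : Type*} [Group G] (g c a : G) : ev G a (wd g c) = (g⁻¹ * a) * c * (g⁻¹ * a)⁻¹ * c⁻¹ := by
  simp [wd, ev]

private lemma isClosed_coord (n : I) (hc : Subgroup.center (F n) = ⊥) (b : F n) :
    @IsClosed (∀ i, F i) (Zar (∀ i, F i)) {a | a n = b} := by
  classical
  let _ := Zar (∀ i, F i)
  have key : {a : (∀ i, F i) | a n = b} =
      ⋂ c : F n, {a | ev (∀ i, F i) a (wd (Pi.mulSingle n b) (Pi.mulSingle n c)) = 1} := by
    ext a
    simp only [Set.mem_ofPred_eq, Set.mem_iInter, ev_wd]
    constructor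
    · intro h c
      funext k
      by_cases hk : k = n
      · subst hk
        simp [h]
      · simp [Pi.mulSingle_eq_of_ne hk]
    · intro h
      have : b⁻¹ * a n = 1 := by
        have hmem : b⁻¹ * a n ∈ Subgroup.center (F n) := by
          rw [Subgroup.mem_center_iff]
          intro c
          have := congrFun (h c) n
          simp only [Pi.mul_apply, Pi.inv_apply, Pi.mulSingle_eq_same, Pi.one_apply] at this
          have h2 : (b⁻¹ * a n) * c = c * (b⁻¹ * a n) := by
            have h3 := mul_inv_eq_one.mp this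
            exact mul_inv_eq_iff_eq_mul.mp h3
          exact h2.symm
        rw [hc] at hmem
        exact Subgroup.mem_bot.mp hmem
      exact (inv_mul_eq_one.mp this).symm
  rw [key]
  apply isClosed_iInter
  intro c
  rw [← isOpen_compl_iff]
  exact TopologicalSpace.isOpen_generateFrom_of_mem ⟨_, rfl⟩

private lemma isOpen_coord (n : I) [Finite (F n)] (hc : Subgroup.center (F n) = ⊥) (b : F n) :
    @IsOpen (∀ i, F i) (Zar (∀ i, F i)) {a | a n = b} := by
  let _ := Zar (∀ i, F i)
  have key : {a : (∀ i, F i) | a n = b} = (⋃ c ∈ {c : F n | c ≠ b}, {a : (∀ i, F i) | a n = c})ᶜ := by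
    ext a
    simp only [Set.mem_ofPred_eq, Set.mem_compl_iff, Set.mem_iUnion, not_exists]
    constructor
    · intro h c hc h2
      exact hc (h2.symm.trans h)
    · intro h
      by_contra h2
      exact h (a n) h2 rfl
  rw [key, isOpen_compl_iff]
  apply Set.Finite.isClosed_biUnion (Set.toFinite _)
  intro c _
  exact isClosed_coord n hc c

/-- Products of finite groups with trivial centres. -/
theorem zar_eq [∀ i, Finite (F i)] (hc : ∀ i, Subgroup.center (F i) = ⊥) : Zar (∀ i, F i) = prodTop F := by
  apply le_antisymm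
  · have : ∀ n : I, @Continuous (∀ i, F i) (F n) (Zar (∀ i, F i)) ⊥ (fun a => a n) := by
      intro n
      let _ := Zar (∀ i, F i)
      let _ : TopologicalSpace (F n) := ⊥
      have : DiscreteTopology (F n) := ⟨rfl⟩
      rw [continuous_discrete_rng]
      intro b
      exact isOpen_coord n (hc n) b
    have h2 : @Continuous (∀ i, F i) (∀ i, F i) (Zar (∀ i, F i)) (prodTop F) id :=
      @continuous_pi (∀ i, F i) I F (Zar (∀ i, F i)) (fun _ => ⊥) id this
    exact continuous_id_iff_le.mp h2
  · apply le_generateFrom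
    rintro U ⟨w, rfl⟩
    let _ : ∀ i, TopologicalSpace (F i) := fun _ => ⊥
    have : ∀ i, DiscreteTopology (F i) := fun _ => ⟨rfl⟩
    have : ∀ i, T2Space (F i) := fun _ => inferInstance
    have hT2 : T2Space (∀ i, F i) := inferInstance
    have hcl : IsClosed {g : (∀ i, F i) | ev (∀ i, F i) g w = 1} :=
      @isClosed_eq _ _ _ _ hT2 _ _ (cont_ev w) continuous_const
    exact hcl.isOpen_compl

private lemma center_infinite (h : {i | Subgroup.center (F i) ≠ ⊥}.Infinite) :
    (Subgroup.center (∀ i, F i) : Set (∀ i, F i)).Infinite := by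
  classical
  set J : Set I := {i | Subgroup.center (F i) ≠ ⊥} with hJ
  have hz : ∀ i : J, ∃ z : F i, z ∈ Subgroup.center (F i) ∧ z ≠ 1 := by
    rintro ⟨i, hi⟩
    have := (Subgroup.ne_bot_iff_exists_ne_one).mp hi
    obtain ⟨⟨z, hz⟩, hz1⟩ := this
    exact ⟨z, hz, fun h => hz1 (Subtype.ext h)⟩
  choose z hzc hz1 using hz
  have hinj : Function.Injective (fun i : J => (Pi.mulSingle (i : I) (z i) : ∀ i, F i)) := by
    intro i j hij
    by_contra hne
    have hne' : (i : I) ≠ (j : I) := fun h => hne (Subtype.ext h)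
    have := congrFun hij (i : I)
    simp only [Pi.mulSingle_eq_same] at this
    rw [Pi.mulSingle_eq_of_ne hne'] at this
    exact hz1 i this
  have hinf : Infinite J := h.to_subtype
  refine (Set.infinite_range_of_injective hinj).mono ?_
  rintro _ ⟨i, rfl⟩
  change _ ∈ Subgroup.center _
  rw [Subgroup.mem_center_iff]
  intro g
  funext k
  by_cases hk : k = i
  · subst hk
    simp only [Pi.mul_apply, Pi.mulSingle_eq_same]
    exact Subgroup.mem_center_iff.mp (hzc i) (g i)
  · simp [Pi.mulSingle_eq_of_ne hk]

end products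

private theorem zar_compact {I : Type v} {F : I → Type u} [∀ i, Group (F i)] [∀ i, Finite (F i)]
    (hc : ∀ i, Subgroup.center (F i) = ⊥) : @CompactSpace _ (Zar (∀ i, F i)) := by
  rw [zar_eq hc]
  let _ : ∀ i, TopologicalSpace (F i) := fun _ => ⊥
  have : ∀ i, DiscreteTopology (F i) := fun _ => ⟨rfl⟩
  have : ∀ i, CompactSpace (F i) := fun _ => inferInstance
  change CompactSpace (∀ i, F i)
  infer_instance

private theorem zar_t2 {I : Type v} {F : I → Type u} [∀ i, Group (F i)] [∀ i, Finite (F i)]
    (hc : ∀ i, Subgroup.center (F i) = ⊥) : @T2Space _ (Zar (∀ i, F i)) := by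
  rw [zar_eq hc]
  let _ : ∀ i, TopologicalSpace (F i) := fun _ => ⊥
  have : ∀ i, DiscreteTopology (F i) := fun _ => ⟨rfl⟩
  have : ∀ i, T2Space (F i) := fun _ => inferInstance
  change T2Space (∀ i, F i)
  infer_instance

private theorem exists_group : ∃ (G : Type) (_ : Group G), Infinite G ∧ @CompactSpace G (Zar G) ∧ @T2Space G (Zar G) := by
  have hc : ∀ _ : ℕ, Subgroup.center (DihedralGroup 3) = ⊥ := fun _ =>
    DihedralGroup.center_eq_bot_of_odd_ne_one (by decide) (by decide)
  have hf : ∀ _ : ℕ, Finite (DihedralGroup 3) := fun _ => inferInstance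
  have hn : Nontrivial (DihedralGroup 3) := inferInstance
  refine ⟨ℕ → DihedralGroup 3, inferInstance, inferInstance, ?_, ?_⟩
  · exact zar_compact (I := ℕ) (F := fun _ => DihedralGroup 3) hc
  · exact zar_t2 (I := ℕ) (F := fun _ => DihedralGroup 3) hc

/-- There is an infinite group whose Zariski topology is compact and Hausdorff. More exactly, let `F i` be finite groups, `i ∈ I`. If all their
centres are trivial, the Zariski topology of the product of the `F i` is the product topology of the discrete groups `F i`, and it is compact and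
Hausdorff. If infinitely many of the centres are not trivial, it is not Hausdorff. And any group with Hausdorff Zariski topology has a finite centre. -/
theorem result :
    (∃ (G : Type) (_ : Group G), Infinite G ∧ @CompactSpace G (Zar G) ∧ @T2Space G (Zar G)) ∧
    (∀ (I : Type v) (F : I → Type u) [∀ i, Group (F i)] [∀ i, Finite (F i)],
      ((∀ i, Subgroup.center (F i) = ⊥) →
        Zar (∀ i, F i) = prodTop F ∧ @CompactSpace _ (Zar (∀ i, F i)) ∧ @T2Space _ (Zar (∀ i, F i))) ∧
      ({i | Subgroup.center (F i) ≠ ⊥}.Infinite → ¬ @T2Space _ (Zar (∀ i, F i)))) ∧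
    (∀ (G : Type u) [Group G], @T2Space G (Zar G) → (Subgroup.center G : Set G).Finite) := by
  refine ⟨exists_group, ?_, fun G _ h => center_finite h⟩
  intro I F _ _
  exact ⟨fun hc => ⟨zar_eq hc, zar_compact hc, zar_t2 hc⟩, fun h hT => center_infinite h (center_finite hT)⟩

end Pool.Agent.Results.MP_207b86_al.FiniteProducts
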